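import Pool.Agent.N949.PG.Def

set_option autoImplicit false
set_option linter.all false

namespace Pool.Agent.N195.PG

open Pool.Agent.N949.PG Pool.Agent.N941.SP MeasureTheory

/-- the half-open cell -/
def hcell (c : ℤ × ℤ) : Set ℂ :=
  Complex.measurableEquivRealProd ⁻¹'
    (Set.Ico (c.1 : ℝ) (c.1 + 1) ×ˢ Set.Ico (c.2 : ℝ) (c.2 + 1))

lemma mem_hcell (c : ℤ × ℤ) (z : ℂ) : z ∈ hcell c ↔
    ((c.1 : ℝ) ≤ z.re ∧ z.re < c.1 + 1) ∧ ((c.2 : ℝ) ≤ z.im ∧ z.im < c.2 + 1) := by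
  unfold hcell
  simp [Complex.measurableEquivRealProd_apply]

lemma hcell_sub (c : ℤ × ℤ) : hcell c ⊆ cell c := by
  intro z hz
  rw [mem_hcell] at hz
  exact ⟨hz.1.1, hz.1.2.le, hz.2.1, hz.2.2.le⟩

lemma meas_hcell (c : ℤ × ℤ) : MeasurableSet (hcell c) :=
  Complex.measurableEquivRealProd.measurable (measurableSet_Ico.prod measurableSet_Ico)

lemma vol_hcell (c : ℤ × ℤ) : volume (hcell c) = 1 := by
  unfold hcell
  rw [Complex.volume_preserving_equiv_real_prod.measure_preimage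
    (measurableSet_Ico.prod measurableSet_Ico).nullMeasurableSet]
  rw [Measure.volume_eq_prod, Measure.prod_prod, Real.volume_Ico, Real.volume_Ico]
  simp

lemma disj_hcell (c c' : ℤ × ℤ) (h : c ≠ c') : Disjoint (hcell c) (hcell c') := by
  rw [Set.disjoint_left]
  intro z hz hz'
  rw [mem_hcell] at hz hz'
  apply h
  have h1 : ⌊z.re⌋ = c.1 := Int.floor_eq_iff.2 hz.1
  have h2 : ⌊z.re⌋ = c'.1 := Int.floor_eq_iff.2 hz'.1
  have h3 : ⌊z.im⌋ = c.2 := Int.floor_eq_iff.2 hz.2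
  have h4 : ⌊z.im⌋ = c'.2 := Int.floor_eq_iff.2 hz'.2
  exact Prod.ext (h1.symm.trans h2) (h3.symm.trans h4)

lemma compact_cell (c : ℤ × ℤ) : IsCompact (cell c) := by
  have h1 : cell c = (Set.Icc (c.1 : ℝ) (c.1 + 1)) ×ℂ (Set.Icc (c.2 : ℝ) (c.2 + 1)) := by
    ext z
    simp only [cell, Set.mem_setOf_eq, Complex.mem_reProdIm, Set.mem_Icc]
    tauto
  rw [h1]
  exact isCompact_Icc.reProdIm isCompact_Icc

theorem t_CMB : Pool.Agent.N949.PG.S_HUL → Pool.Agent.N949.PG.S_ISO →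
    Pool.Agent.N949.PG.S_AREA := by
  classical
  intro hHUL hISO m f D hm hf hD
  unfold area
  by_cases hfin : Finite {c : ℤ × ℤ // Encl m f c}
  · have hfin' : {c : ℤ × ℤ | Encl m f c}.Finite := Set.finite_coe_iff.1 hfin
    set C : Finset (ℤ × ℤ) := hfin'.toFinset with hC
    have hmem : ∀ c, c ∈ C ↔ Encl m f c := by
      intro c
      rw [hC, Set.Finite.mem_toFinset]
      rfl
    have hcard : Nat.card {c : ℤ × ℤ // Encl m f c} = C.card := by
      rw [hC]
      exact Nat.card_eq_card_finite_toFinset hfin'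
    rw [hcard]
    have hcomp : IsCompact (⋃ c ∈ C, cell c) := C.isCompact_biUnion fun c _ => compact_cell c
    have h1 := hISO (⋃ c ∈ C, cell c) D hcomp (by
      intro z hz w hw
      simp only [Set.mem_iUnion, exists_prop] at hz hw
      obtain ⟨c, hc, hz⟩ := hz
      obtain ⟨c', hc', hw⟩ := hw
      exact hHUL m f D hm hf hD c c' ((hmem c).1 hc) ((hmem c').1 hc') z hz w hw)
    have h2 : (C.card : ENNReal) = volume (⋃ c ∈ C, hcell c) := by
      rw [measure_biUnion_finset (fun c _ c' _ h => disj_hcell c c' h)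
        (fun c _ => meas_hcell c)]
      simp [vol_hcell]
    have h3 : volume (⋃ c ∈ C, hcell c) ≤ volume (⋃ c ∈ C, cell c) :=
      measure_mono (Set.iUnion₂_mono fun c _ => hcell_sub c)
    have h4 : (C.card : ENNReal) ≤ ENNReal.ofReal (Real.pi / 4 * D ^ 2) := h2.trans_le (h3.trans h1)
    have h5 : 0 ≤ Real.pi / 4 * D ^ 2 := by positivity
    have h6 := ENNReal.toReal_mono ENNReal.ofReal_ne_top h4
    rw [ENNReal.toReal_ofReal h5] at h6
    simpa using h6
  · have : Infinite {c : ℤ × ℤ // Encl m f c} := not_finite_iff_infinite.1 hfin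
    rw [Nat.card_eq_zero_of_infinite]
    have : 0 ≤ Real.pi / 4 * D ^ 2 := by positivity
    simpa using this

end Pool.Agent.N195.PG
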